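import Pool.Agent.MP_d722ac_gt.H93.Vol

set_option autoImplicit false

open MeasureTheory Set

namespace Pool.Agent.MP_d722ac_gt.H93

section general

variable {V : Type*} [NormedAddCommGroup V] [InnerProductSpace ℝ V]

/-- polar set -/
def pol (S : Set V) : Set V := {z | ∀ x ∈ S, inner ℝ x z ≤ (1 : ℝ)}

/-- Steiner symmetral -/
def stein (K : Set V) (u : V) : Set V :=
  {w | (∃ s : ℝ, w - (inner ℝ w u) • u + s • u ∈ K) ∧
    ENNReal.ofReal (2 * |inner ℝ w u|) ≤ volume {s : ℝ | w - (inner ℝ w u) • u + s • u ∈ K}}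

/-- The Meyer-Pajor inclusion. -/
theorem mem_pol_stein (K : Set V) (hK : ∀ x ∈ K, -x ∈ K) (u c p : V) (hu : inner ℝ u u = (1 : ℝ))
    (hp : inner ℝ u p = (0 : ℝ)) (h1 : c + p ∈ pol K) (h2 : c - p ∈ pol K) (t : ℝ)
    (ht : |t| ≤ |inner ℝ u c|) : p + t • u ∈ pol (stein K u) := by
  rintro w ⟨⟨s0, hs0⟩, hw⟩
  set a : ℝ := inner ℝ w u with ha
  set x : V := w - a • u with hx
  set σ : ℝ := inner ℝ u c with hσ
  set D : ℝ := inner ℝ x p with hD
  have hxu : inner ℝ x u = (0 : ℝ) := by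
    rw [hx, inner_sub_left, real_inner_smul_left, hu, ← ha]; ring
  have key : ∀ b1 b2 : ℝ, x + b1 • u ∈ K → x + b2 • u ∈ K → σ * (b1 - b2) ≤ 2 * (1 - D) := by
    intro b1 b2 hb1 hb2
    have e1 := h1 _ hb1
    have e2 := h2 _ (hK _ hb2)
    simp only [inner_add_left, inner_add_right, inner_sub_right, inner_neg_left,
      real_inner_smul_left, hp, ← hσ, ← hD] at e1 e2
    linarith
  have hD1 : 0 ≤ 1 - D := by
    have := key s0 s0 hs0 hs0
    linarith
  have hw' : inner ℝ w (p + t • u) = D + t * a := by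
    have : w = x + a • u := by rw [hx]; abel
    have e : inner ℝ w p = D := by
      rw [this, inner_add_left, real_inner_smul_left, hp, ← hD]; ring
    rw [inner_add_right, real_inner_smul_right, e, ← ha]
  rw [hw']
  have hmain : |σ| * |a| ≤ 1 - D := by
    rcases eq_or_ne σ 0 with h0 | h0
    · rw [h0, abs_zero, zero_mul]; exact hD1
    · have hσpos : 0 < |σ| := abs_pos.2 h0
      have hdiam : Metric.ediam {s : ℝ | x + s • u ∈ K} ≤ ENNReal.ofReal (2 * (1 - D) / |σ|) := by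
        apply Metric.ediam_le
        intro b1 hb1 b2 hb2
        rw [edist_dist, Real.dist_eq]
        apply ENNReal.ofReal_le_ofReal
        rw [le_div_iff₀ hσpos, ← abs_mul]
        have k1 := key b1 b2 hb1 hb2
        have k2 := key b2 b1 hb2 hb1
        rw [abs_le]
        constructor <;> linarith
      have h3 := hw.trans ((Real.volume_le_diam _).trans hdiam)
      rw [ENNReal.ofReal_le_ofReal_iff (by positivity), le_div_iff₀ hσpos] at h3
      linarith
  have : t * a ≤ |σ| * |a| := by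
    calc t * a ≤ |t * a| := le_abs_self _
      _ = |t| * |a| := abs_mul _ _
      _ ≤ |σ| * |a| := by gcongr
  linarith

theorem subset_pol_pol (S : Set V) : S ⊆ pol (pol S) := by
  intro z hz x hx
  rw [real_inner_comm]
  exact hx z hz

theorem convex_pol (S : Set V) : Convex ℝ (pol S) := by
  intro z1 h1 z2 h2 a b ha hb hab x hx
  rw [inner_add_right, real_inner_smul_right, real_inner_smul_right]
  have e1 := h1 x hx
  have e2 := h2 x hx
  nlinarith

theorem isClosed_pol (S : Set V) : IsClosed (pol S) := by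
  have : pol S = ⋂ x ∈ S, {z : V | inner ℝ x z ≤ (1 : ℝ)} := by
    ext z; simp [pol]
  rw [this]
  exact isClosed_biInter fun x _ => isClosed_le (by fun_prop) (by fun_prop)

theorem neg_mem_pol (S : Set V) (hS : ∀ x ∈ S, -x ∈ S) : ∀ z ∈ pol S, -z ∈ pol S := by
  intro z hz x hx
  have := hz _ (hS x hx)
  rwa [inner_neg_left, ← inner_neg_right] at this

theorem pol_subset_ball (S : Set V) (r : ℝ) (hr : 0 < r) (hS : Metric.closedBall 0 r ⊆ S) :
    pol S ⊆ Metric.closedBall 0 r⁻¹ := by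
  intro z hz
  rw [mem_closedBall_zero_iff]
  rcases eq_or_ne z 0 with h0 | h0
  · rw [h0, norm_zero]; positivity
  · have hz0 : 0 < ‖z‖ := norm_pos_iff.2 h0
    have hm : (r / ‖z‖) • z ∈ S := by
      apply hS
      rw [mem_closedBall_zero_iff, norm_smul, Real.norm_eq_abs, abs_of_pos (by positivity),
        div_mul_cancel₀ _ hz0.ne']
    have := hz _ hm
    rw [real_inner_smul_left, real_inner_self_eq_norm_sq] at this
    have e : r / ‖z‖ * ‖z‖ ^ 2 = r * ‖z‖ := by field_simp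
    rw [e] at this
    rw [← one_div, le_div_iff₀ hr]
    linarith

theorem ball_subset_pol (S : Set V) (r : ℝ) (hr : 0 < r) (hS : S ⊆ Metric.closedBall 0 r) :
    Metric.ball 0 r⁻¹ ⊆ pol S := by
  intro z hz x hx
  have h1 : ‖x‖ ≤ r := mem_closedBall_zero_iff.1 (hS hx)
  have h2 : ‖z‖ ≤ r⁻¹ := (mem_ball_zero_iff.1 hz).le
  calc inner ℝ x z ≤ ‖x‖ * ‖z‖ := real_inner_le_norm x z
    _ ≤ r * r⁻¹ := by gcongr
    _ = 1 := mul_inv_cancel₀ hr.ne'

end general

theorem inner_eq (m : ℕ) (u p : E m) :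
    inner ℝ u p = u 0 * p 0 + ∑ j : Fin (m + m), u j.succ * p j.succ := by
  rw [PiLp.inner_apply, Fin.sum_univ_succ]
  simp [mul_comm]

theorem forall_succ {m : ℕ} (P : Fin (m + m + 1) → Prop) (h1 : ∀ i, P (ix i)) (h2 : ∀ i, P (iy i))
    (j : Fin (m + m)) : P j.succ := by
  refine Fin.addCases (motive := fun j => P j.succ) ?_ ?_ j
  · exact h1
  · exact h2

theorem ix_ne {m : ℕ} (i : Fin m) : ix i ≠ 0 := Fin.succ_ne_zero _

theorem iy_ne {m : ℕ} (i : Fin m) : iy i ≠ 0 := Fin.succ_ne_zero _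

theorem abs_sum_le (m : ℕ) (u p : E m) (hu : ∀ j, |u j| ≤ 1) (hp : ∀ j : Fin (m + m), |p j.succ| ≤ 1) :
    |∑ j : Fin (m + m), u j.succ * p j.succ| ≤ 2 * m := by
  calc |∑ j : Fin (m + m), u j.succ * p j.succ| ≤ ∑ j : Fin (m + m), |u j.succ * p j.succ| :=
        Finset.abs_sum_le_sum_abs _ _
    _ ≤ ∑ _j : Fin (m + m), (1 : ℝ) := by
        apply Finset.sum_le_sum
        intro j _
        rw [abs_mul]
        exact mul_le_one₀ (hu _) (abs_nonneg _) (hp j)
    _ = 2 * m := by simp; ring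

theorem fib_neg (m : ℕ) (a r c : ℝ) : ∀ z ∈ fib m a r c, -z ∈ fib m a r c := by
  rintro z ⟨h0, h⟩
  refine ⟨by simpa using h0, fun i => ?_⟩
  obtain ⟨h1, h2, h3⟩ := h i
  refine ⟨by simpa using h1, by simpa using h2, ?_⟩
  simp only [PiLp.neg_apply] at h3 ⊢
  rw [← abs_neg]
  convert h3 using 2
  ring

theorem fib_bounded (m : ℕ) (a c : ℝ) (ha : 0 < a) :
    fib m a 1 c ⊆ Metric.closedBall 0 (a + 2 * m + 1) := by
  rintro z ⟨h0, h⟩
  rw [mem_closedBall_zero_iff]
  have hj : ∀ j : Fin (m + m), |z j.succ| ≤ 1 :=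
    forall_succ (fun j => |z j| ≤ 1) (fun i => (h i).1) (fun i => (h i).2.1)
  have h1 : ‖z‖ ^ 2 ≤ a ^ 2 + 2 * m := by
    rw [← real_inner_self_eq_norm_sq, inner_eq]
    have e1 : z 0 * z 0 ≤ a ^ 2 := by
      rw [← sq, ← sq_abs]; exact pow_le_pow_left₀ (abs_nonneg _) h0 2
    have e2 : ∑ j : Fin (m + m), z j.succ * z j.succ ≤ ∑ _j : Fin (m + m), (1 : ℝ) := by
      apply Finset.sum_le_sum
      intro j _
      have := hj j
      rw [← sq, ← sq_abs]; nlinarith [abs_nonneg (z j.succ)]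
    have e3 : ∑ _j : Fin (m + m), (1 : ℝ) = 2 * m := by simp; ring
    linarith
  have hm : (0 : ℝ) ≤ m := Nat.cast_nonneg m
  apply le_of_sq_le_sq _ (by positivity)
  nlinarith

theorem abs_apply_le_norm (m : ℕ) (z : E m) (j : Fin (m + m + 1)) : |z j| ≤ ‖z‖ := by
  simpa using PiLp.norm_apply_le z j

theorem ball_subset_fib (m : ℕ) (a : ℝ) (ha : 1 ≤ a) :
    Metric.closedBall 0 (1 / 3) ⊆ fib m a 1 a⁻¹ := by
  intro z hz
  rw [mem_closedBall_zero_iff] at hz
  have hj : ∀ j, |z j| ≤ 1 / 3 := fun j => (abs_apply_le_norm m z j).trans hz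
  refine ⟨by linarith [hj 0], fun i => ⟨by linarith [hj (ix i)], by linarith [hj (iy i)], ?_⟩⟩
  have h1 : |z 0 * a⁻¹| ≤ 1 / 3 := by
    rw [abs_mul, abs_of_pos (inv_pos.2 (by linarith : 0 < a))]
    have : a⁻¹ ≤ 1 := inv_le_one_of_one_le₀ ha
    have h0 : 0 ≤ a⁻¹ := by positivity
    nlinarith [hj 0, abs_nonneg (z 0)]
  have h2 := abs_le.1 (hj (ix i))
  have h3 := abs_le.1 (hj (iy i))
  have h4 := abs_le.1 h1
  simp only
  rw [abs_le]
  constructor <;> linarith [h2.1, h2.2, h3.1, h3.2, h4.1, h4.2]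

theorem pol_pol_fib (m : ℕ) (a : ℝ) (ha : 0 < a) :
    pol (pol (fib m a 1 a⁻¹)) ⊆ fib m a 1 a⁻¹ := by
  intro z hz
  have key : ∀ v : E m, (∀ w ∈ fib m a 1 a⁻¹, |inner ℝ v w| ≤ 1) → |inner ℝ v z| ≤ 1 := by
    intro v hv
    have h1 : v ∈ pol (fib m a 1 a⁻¹) := by
      intro w hw
      rw [real_inner_comm]
      exact (abs_le.1 (hv w hw)).2
    have h2 : -v ∈ pol (fib m a 1 a⁻¹) := neg_mem_pol _ (fib_neg m a 1 a⁻¹) v h1
    have e1 := hz v h1
    have e2 := hz _ h2
    rw [inner_neg_left] at e2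
    exact abs_le.2 ⟨by linarith, e1⟩
  have hs : ∀ (j : Fin (m + m + 1)) (w : E m),
      inner ℝ (EuclideanSpace.single j (1 : ℝ) : E m) w = w j := by
    intro j w
    rw [EuclideanSpace.inner_single_left]; simp
  refine ⟨?_, fun i => ⟨?_, ?_, ?_⟩⟩
  · have := key (a⁻¹ • EuclideanSpace.single 0 (1 : ℝ)) (by
      intro w hw
      rw [real_inner_smul_left, hs, abs_mul, abs_of_pos (inv_pos.2 ha), ← div_eq_inv_mul,
        div_le_one ha]
      exact hw.1)
    rwa [real_inner_smul_left, hs, abs_mul, abs_of_pos (inv_pos.2 ha), ← div_eq_inv_mul,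
        div_le_one ha] at this
  · have := key (EuclideanSpace.single (ix i) (1 : ℝ)) (by
      intro w hw
      rw [hs]
      exact (hw.2 i).1)
    rwa [hs] at this
  · have := key (EuclideanSpace.single (iy i) (1 : ℝ)) (by
      intro w hw
      rw [hs]
      exact (hw.2 i).2.1)
    rwa [hs] at this
  · have := key (EuclideanSpace.single (ix i) (1 : ℝ) + EuclideanSpace.single (iy i) (1 : ℝ)
        - a⁻¹ • EuclideanSpace.single 0 (1 : ℝ)) (by
      intro w hw
      rw [inner_sub_left, inner_add_left, real_inner_smul_left, hs, hs, hs, mul_comm]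
      exact (hw.2 i).2.2)
    rwa [inner_sub_left, inner_add_left, real_inner_smul_left, hs, hs, hs, mul_comm] at this

/-- the linear change of variables -/
noncomputable def phi (m : ℕ) (u : E m) : E m →ₗ[ℝ] E m :=
  LinearMap.transvection (EuclideanSpace.projₗ (0 : Fin (m + m + 1)))
      (u 0 • EuclideanSpace.single 0 (1 : ℝ) - u) ∘ₗ
    LinearMap.transvection (innerₛₗ ℝ u - EuclideanSpace.projₗ (0 : Fin (m + m + 1)))
      (EuclideanSpace.single 0 (1 : ℝ))

theorem det_phi (m : ℕ) (u : E m) : LinearMap.det (phi m u) = u 0 := by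
  rw [phi, LinearMap.det_comp, LinearMap.transvection.det, LinearMap.transvection.det]
  simp [EuclideanSpace.inner_single_right]

theorem phi_zero (m : ℕ) (u z : E m) : phi m u z 0 = inner ℝ u z := by
  simp [phi, LinearMap.transvection.apply]

theorem phi_ne (m : ℕ) (u z : E m) (j : Fin (m + m + 1)) (hj : j ≠ 0) :
    phi m u z j = z j - inner ℝ u z * u j := by
  simp [phi, LinearMap.transvection.apply, hj]
  ring

theorem volume_preimage_phi (m : ℕ) (u : E m) (hu : u 0 ≠ 0) (b r : ℝ) (hr : 0 ≤ r) :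
    volume (phi m u ⁻¹' fib m (b * |u 0|) r 0) = ENNReal.ofReal (2 * b * (3 * r ^ 2) ^ m) := by
  rw [Measure.addHaar_preimage_linearMap _ (by rwa [det_phi]), det_phi, volume_fib_zero _ _ _ hr,
    ← ENNReal.ofReal_mul (abs_nonneg _)]
  congr 1
  rw [abs_inv]
  have : |u 0| ≠ 0 := abs_ne_zero.2 hu
  field_simp

theorem abs_three (x y r : ℝ) (hx : |x| ≤ r) (hy : |y| ≤ r) (hxy : |x + y| ≤ r) :
    |x| + |y| + |x + y| ≤ 2 * r := by
  rcases abs_cases x with h1 | h1 <;> rcases abs_cases y with h2 | h2 <;>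
    rcases abs_cases (x + y) with h3 | h3 <;> linarith [h1.1, h2.1, h3.1]

theorem preimage_subset (m : ℕ) (u : E m) (hu : ‖u‖ = 1) (a e η : ℝ) (ha : 0 < a) (he : 0 < e)
    (he1 : e ≤ 1 / 2) (hη : 0 < η) (hu0 : η ≤ |u 0|) (hbig : 2 * m ≤ e * a * η) :
    phi m u ⁻¹' fib m ((1 - 2 * e) * a * |u 0|) (1 - e) 0 ⊆
      pol (stein (pol (fib m a 1 a⁻¹)) u) := by
  rintro z ⟨h0, h⟩
  rw [phi_zero] at h0
  set t : ℝ := inner ℝ u z with ht
  set p : E m := z - t • u with hp
  have huu : inner ℝ u u = (1 : ℝ) := by rw [real_inner_self_eq_norm_sq, hu]; norm_num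
  have hup : inner ℝ u p = (0 : ℝ) := by
    rw [hp, inner_sub_right, real_inner_smul_right, huu, ← ht]; ring
  have hpj : ∀ j, j ≠ 0 → phi m u z j = p j := by
    intro j hj
    rw [phi_ne m u z j hj, hp]
    simp [ht]
  have hh : ∀ i, |p (ix i)| ≤ 1 - e ∧ |p (iy i)| ≤ 1 - e ∧ |p (ix i) + p (iy i)| ≤ 1 - e := by
    intro i
    have := h i
    rw [hpj _ (ix_ne i), hpj _ (iy_ne i)] at this
    simpa [hex] using this
  have huj : ∀ j, |u j| ≤ 1 := fun j => hu ▸ abs_apply_le_norm m u j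
  have hpj1 : ∀ j : Fin (m + m), |p j.succ| ≤ 1 - e :=
    forall_succ (fun j => |p j| ≤ 1 - e) (fun i => (hh i).1) (fun i => (hh i).2.1)
  set c : E m := WithLp.toLp 2 (fun j => if j = 0 then (1 - e) * a else (1 - e) - |p j|) with hc
  have hc0 : c 0 = (1 - e) * a := by simp [hc]
  have hcj : ∀ j, j ≠ 0 → c j = (1 - e) - |p j| := by
    intro j hj; simp [hc, hj]
  have hu0pos : 0 < |u 0| := hη.trans_le hu0
  have hbig' : 2 * (m : ℝ) ≤ e * a * |u 0| := hbig.trans (by gcongr)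
  have hp0 : |p 0| ≤ e * a := by
    have e1 := inner_eq m u p
    have e2 := abs_sum_le m u p huj (fun j => (hpj1 j).trans (by linarith))
    rw [hup] at e1
    have e3 : |u 0| * |p 0| ≤ 2 * m := by
      rw [← abs_mul]
      have : u 0 * p 0 = -∑ j : Fin (m + m), u j.succ * p j.succ := by linarith
      rw [this, abs_neg]; exact e2
    have e4 : |u 0| * |p 0| ≤ |u 0| * (e * a) := by linarith
    exact le_of_mul_le_mul_left e4 hu0pos
  have hσ : |t| ≤ |inner ℝ u c| := by
    have e1 := inner_eq m u c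
    have e2 := abs_sum_le m u c huj (fun j => by
      rw [hcj _ (Fin.succ_ne_zero j)]
      have := hpj1 j
      have := abs_nonneg (p j.succ)
      rw [abs_le]; constructor <;> linarith)
    rw [hc0] at e1
    have e3 : |u 0 * ((1 - e) * a)| = (1 - e) * a * |u 0| := by
      rw [abs_mul, abs_of_nonneg (by nlinarith : 0 ≤ (1 - e) * a)]; ring
    have e4 : |u 0 * ((1 - e) * a)| ≤ |inner ℝ u c| + |∑ j : Fin (m + m), u j.succ * c j.succ| := by
      have : u 0 * ((1 - e) * a) = inner ℝ u c - ∑ j : Fin (m + m), u j.succ * c j.succ := by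
        linarith
      rw [this]; exact abs_sub _ _
    linarith
  have hmem : ∀ q : E m, (∀ j, |q j| = |p j|) → (∀ i, |q (ix i) + q (iy i)| = |p (ix i) + p (iy i)|)
      → c + q ∈ fib m a 1 a⁻¹ := by
    intro q hq hq2
    have q0 := abs_le.1 ((hq 0).trans_le hp0)
    have t1 : (1 - 2 * e) * a ≤ (c + q) 0 := by
      rw [PiLp.add_apply, hc0]; linarith [q0.1]
    have t2 : (c + q) 0 ≤ a := by
      rw [PiLp.add_apply, hc0]; linarith [q0.2]
    have t3 : 1 - 2 * e ≤ (c + q) 0 * a⁻¹ := by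
      rw [← div_eq_mul_inv, le_div_iff₀ ha]; exact t1
    have t4 : (c + q) 0 * a⁻¹ ≤ 1 := by
      rw [← div_eq_mul_inv, div_le_one ha]; exact t2
    refine ⟨abs_le.2 ⟨by nlinarith, t2⟩, fun i => ?_⟩
    obtain ⟨k1, k2, k3⟩ := hh i
    have k4 := abs_three _ _ _ k1 k2 k3
    have x1 : (c + q) (ix i) = (1 - e) - |p (ix i)| + q (ix i) := by
      rw [PiLp.add_apply, hcj _ (ix_ne i)]
    have y1 : (c + q) (iy i) = (1 - e) - |p (iy i)| + q (iy i) := by
      rw [PiLp.add_apply, hcj _ (iy_ne i)]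
    have a1 := abs_le.1 (hq (ix i)).le
    have a2 := abs_le.1 (hq (iy i)).le
    have a3 := abs_le.1 (hq2 i).le
    refine ⟨?_, ?_, ?_⟩
    · simp only
      rw [x1, abs_le]; constructor <;> linarith [a1.1, a1.2, a2.1, a2.2, a3.1, a3.2]
    · simp only
      rw [y1, abs_le]; constructor <;> linarith [a1.1, a1.2, a2.1, a2.2, a3.1, a3.2]
    · simp only
      rw [x1, y1, abs_le]; constructor <;> linarith [a1.1, a1.2, a2.1, a2.2, a3.1, a3.2]
  have m1 : c + p ∈ fib m a 1 a⁻¹ := hmem p (fun _ => rfl) (fun _ => rfl)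
  have m2 : c - p ∈ fib m a 1 a⁻¹ := by
    rw [sub_eq_add_neg]
    refine hmem (-p) (fun j => by simp) (fun i => ?_)
    rw [PiLp.neg_apply, PiLp.neg_apply, ← neg_add, abs_neg]
  have := mem_pol_stein (pol (fib m a 1 a⁻¹)) (neg_mem_pol _ (fib_neg m a 1 a⁻¹)) u c p huu hup
    (subset_pol_pol _ m1) (subset_pol_pol _ m2) t hσ
  have e : p + t • u = z := by rw [hp]; abel
  rwa [e] at this

theorem exists_eta (m : ℕ) : ∃ η : ℝ, 0 < η ∧
    volume (Metric.ball (0 : E m) 1) ≤ 2 * volume (Metric.ball (0 : E m) 1 ∩ {y | η ≤ |y 0|}) := by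
  set B : Set (E m) := Metric.ball 0 1 with hB
  set s : ℕ → Set (E m) := fun k => B ∩ {y | 1 / ((k : ℝ) + 1) ≤ |y 0|} with hs
  have hmono : Monotone s := by
    intro k l hkl y hy
    have h2 : 1 / ((k : ℝ) + 1) ≤ |y 0| := hy.2
    exact ⟨hy.1, (Nat.one_div_le_one_div hkl).trans h2⟩
  have hlim := tendsto_measure_iUnion_atTop (μ := volume) hmono
  have hnull : volume {y : E m | y 0 = 0} = 0 := by
    have := Measure.addHaar_submodule (volume : Measure (E m))
      (LinearMap.ker (EuclideanSpace.projₗ (𝕜 := ℝ) (0 : Fin (m + m + 1)))) (by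
        intro htop
        have : (EuclideanSpace.single 0 (1 : ℝ) : E m) ∈
            LinearMap.ker (EuclideanSpace.projₗ (𝕜 := ℝ) (0 : Fin (m + m + 1))) := by
          rw [htop]; trivial
        simp at this)
    convert this using 2
    ext y
    simp
  have hU : ⋃ k, s k = B \ {y : E m | y 0 = 0} := by
    ext y
    simp only [hs, mem_iUnion, mem_inter_iff, mem_ofPred_eq, mem_sdiff]
    constructor
    · rintro ⟨k, h1, h2⟩
      refine ⟨h1, fun h => ?_⟩
      rw [h, abs_zero] at h2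
      exact absurd h2 (not_le.2 Nat.one_div_pos_of_nat)
    · rintro ⟨h1, h2⟩
      obtain ⟨k, hk⟩ := exists_nat_one_div_lt (abs_pos.2 h2)
      exact ⟨k, h1, hk.le⟩
  rw [hU, measure_sdiff_null hnull] at hlim
  have hpos : volume B ≠ 0 := (Metric.measure_ball_pos volume _ one_pos).ne'
  have hfin : volume B ≠ ⊤ := measure_ball_lt_top.ne
  have hlt : volume B / 2 < volume B := ENNReal.half_lt_self hpos hfin
  obtain ⟨k, hk⟩ := (hlim.eventually (lt_mem_nhds hlt)).exists
  refine ⟨1 / ((k : ℝ) + 1), Nat.one_div_pos_of_nat, ?_⟩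
  have hk' : volume B / 2 ≤ volume (s k) := hk.le
  calc volume B = volume B / 2 + volume B / 2 := (ENNReal.add_halves _).symm
    _ ≤ volume (s k) + volume (s k) := add_le_add hk' hk'
    _ = 2 * volume (s k) := (two_mul _).symm

end Pool.Agent.MP_d722ac_gt.H93
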