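import Pool.Agent.MP_d722ac_gt.H93.Geo

set_option autoImplicit false

open MeasureTheory Set

namespace Pool.Agent.MP_d722ac_gt.H93

/-- the counterexample body -/
noncomputable def body (m : ℕ) (a : ℝ) (ha : 1 ≤ a) : ConvexBody (E m) where
  carrier := pol (fib m a 1 a⁻¹)
  convex' := convex_pol _
  isCompact' := Metric.isCompact_of_isClosed_isBounded (isClosed_pol _)
    (Metric.isBounded_closedBall.subset
      (pol_subset_ball _ (1 / 3) (by norm_num) (ball_subset_fib m a ha)))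
  nonempty' := ⟨0, fun x _ => by simp⟩

theorem numbers (C : ℝ) (hC : 0 ≤ C) : ∃ (m : ℕ) (k e : ℝ), 0 ≤ k ∧ k ≤ 1 ∧ 0 < e ∧ e ≤ 1 / 2 ∧
    2 * C * (k * 3 ^ m + (3 - k ^ 2) ^ m) < (1 - 2 * e) * (3 * (1 - e) ^ 2) ^ m := by
  set k : ℝ := 1 / (8 * (C + 1)) with hk
  have hkpos : 0 < k := by positivity
  have hk1 : k ≤ 1 := by
    rw [hk, div_le_one (by positivity)]; linarith
  have hq0 : 0 ≤ 1 - k ^ 2 / 3 := by nlinarith
  have hq1 : 1 - k ^ 2 / 3 < 1 := by nlinarith
  obtain ⟨m, hm⟩ := exists_pow_lt_of_lt_one hkpos hq1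
  have hm0 : (0 : ℝ) ≤ m := Nat.cast_nonneg m
  set e : ℝ := 1 / (8 * ((m : ℝ) + 1)) with he
  have hepos : 0 < e := by positivity
  have he8 : e * (8 * ((m : ℝ) + 1)) = 1 := by rw [he]; field_simp
  have he1 : e ≤ 1 / 8 := by nlinarith
  refine ⟨m, k, e, hkpos.le, hk1, hepos, by linarith, ?_⟩
  have h3 : (0 : ℝ) < 3 ^ m := by positivity
  have e1 : (3 - k ^ 2) ^ m = 3 ^ m * (1 - k ^ 2 / 3) ^ m := by
    rw [← mul_pow]; congr 1; ring
  have e2 : (3 * (1 - e) ^ 2) ^ m = 3 ^ m * (1 - e) ^ (2 * m) := by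
    rw [mul_pow, ← pow_mul]
  have b1 : 1 + ((2 * m : ℕ) : ℝ) * (-e) ≤ (1 + (-e)) ^ (2 * m) :=
    one_add_mul_le_pow (by linarith) _
  have b2 : 3 / 4 ≤ (1 - e) ^ (2 * m) := by
    rw [sub_eq_add_neg]
    refine le_trans ?_ b1
    push_cast
    nlinarith
  have hkC : C * k ≤ 1 / 8 := by
    have : k * (8 * (C + 1)) = 1 := by rw [hk]; field_simp
    nlinarith
  have l1 : 2 * C * (k + (1 - k ^ 2 / 3) ^ m) ≤ 1 / 2 := by
    have : C * (1 - k ^ 2 / 3) ^ m ≤ C * k := by gcongr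
    nlinarith
  have l2 : 9 / 16 ≤ (1 - 2 * e) * (1 - e) ^ (2 * m) := by
    have : 3 / 4 ≤ 1 - 2 * e := by linarith
    nlinarith
  rw [e1, e2]
  nlinarith

theorem main (C : NNReal) : ∃ (m : ℕ) (K : ConvexBody (E m)), (∀ x ∈ K, -x ∈ K) ∧
    (interior (K : Set (E m))).Nonempty ∧
    (C : ENNReal) * volume (Metric.ball (0 : E m) 1) * volume (pol (K : Set (E m))) <
      ∫⁻ y in Metric.ball (0 : E m) 1, volume (pol (stein (K : Set (E m)) (‖y‖⁻¹ • y))) := by
  obtain ⟨m, k, e, hk0, hk1, he0, he1, hnum⟩ := numbers C C.2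
  obtain ⟨η, hη, hvol⟩ := exists_eta m
  have hm0 : (0 : ℝ) ≤ m := Nat.cast_nonneg m
  set a : ℝ := 1 + 2 * m / (e * η) with ha
  have ha1 : 1 ≤ a := by
    have : 0 ≤ 2 * (m : ℝ) / (e * η) := by positivity
    linarith
  have ha0 : 0 < a := by linarith
  have hbig : 2 * m ≤ e * a * η := by
    have : e * a * η = e * η + 2 * m := by rw [ha]; field_simp
    rw [this]
    have : 0 < e * η := by positivity
    linarith
  refine ⟨m, body m a ha1, neg_mem_pol _ (fib_neg m a 1 a⁻¹), ?_, ?_⟩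
  · refine ⟨0, mem_interior.2 ⟨Metric.ball 0 (a + 2 * m + 1)⁻¹, ?_, Metric.isOpen_ball, ?_⟩⟩
    · exact ball_subset_pol _ _ (by positivity) (fib_bounded m a a⁻¹ ha0)
    · exact Metric.mem_ball_self (by positivity)
  · set B : Set (E m) := Metric.ball 0 1 with hB
    set G : Set (E m) := B ∩ {y | η ≤ |y 0|} with hG
    have hGm : MeasurableSet G :=
      Metric.isOpen_ball.measurableSet.inter
        (isClosed_le (by fun_prop) (by fun_prop) : IsClosed {y : E m | η ≤ |y 0|}).measurableSet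
    set w : ℝ := 2 * ((1 - 2 * e) * a) * (3 * (1 - e) ^ 2) ^ m with hw
    have hlow : ∀ y ∈ G, ENNReal.ofReal w ≤
        volume (pol (stein ((body m a ha1 : ConvexBody (E m)) : Set (E m)) (‖y‖⁻¹ • y))) := by
      rintro y ⟨hy1, hy2⟩
      have hy2' : η ≤ |y 0| := hy2
      have hy1' : ‖y‖ < 1 := mem_ball_zero_iff.1 hy1
      have hyn : 0 < ‖y‖ := (hη.trans_le hy2').trans_le (abs_apply_le_norm m y 0)
      have hu : ‖‖y‖⁻¹ • y‖ = 1 := by
        rw [norm_smul, norm_inv, norm_norm, inv_mul_cancel₀ hyn.ne']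
      have hu0 : η ≤ |(‖y‖⁻¹ • y) 0| := by
        rw [PiLp.smul_apply, smul_eq_mul, abs_mul, abs_of_pos (inv_pos.2 hyn)]
        have : 1 ≤ ‖y‖⁻¹ := (one_le_inv₀ hyn).2 hy1'.le
        nlinarith
      have hne : (‖y‖⁻¹ • y) 0 ≠ 0 := abs_pos.1 (hη.trans_le hu0)
      rw [hw, ← volume_preimage_phi m _ hne _ _ (by linarith)]
      exact measure_mono (preimage_subset m _ hu a e η ha0 he0 he1 hη hu0 hbig)
    have hI : ENNReal.ofReal w * volume G ≤ ∫⁻ y in B,
        volume (pol (stein ((body m a ha1 : ConvexBody (E m)) : Set (E m)) (‖y‖⁻¹ • y))) := by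
      rw [← setLIntegral_const]
      exact (setLIntegral_mono' hGm hlow).trans (lintegral_mono_set inter_subset_left)
    have hup : volume (pol ((body m a ha1 : ConvexBody (E m)) : Set (E m))) ≤
        ENNReal.ofReal (2 * a * (k * 3 ^ m + (3 - k ^ 2) ^ m)) :=
      (measure_mono (pol_pol_fib m a ha0)).trans (volume_fib_le m a k ha0 hk0 hk1)
    have hBpos : volume B ≠ 0 := (Metric.measure_ball_pos volume _ one_pos).ne'
    have hGpos : volume G ≠ 0 := by
      intro h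
      rw [h, mul_zero] at hvol
      exact hBpos (le_antisymm hvol bot_le)
    have hGfin : volume G ≠ ⊤ :=
      ((measure_mono inter_subset_left).trans_lt measure_ball_lt_top).ne
    have hk3 : 0 ≤ 3 - k ^ 2 := by nlinarith
    have hC0 : (0 : ℝ) ≤ C := C.2
    refine lt_of_lt_of_le ?_ hI
    calc (C : ENNReal) * volume B * volume (pol ((body m a ha1 : ConvexBody (E m)) : Set (E m)))
        ≤ (C : ENNReal) * (2 * volume G) *
          ENNReal.ofReal (2 * a * (k * 3 ^ m + (3 - k ^ 2) ^ m)) := by gcongr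
      _ = ENNReal.ofReal (2 * a * (2 * C * (k * 3 ^ m + (3 - k ^ 2) ^ m))) * volume G := by
          have : ENNReal.ofReal (2 * a * (2 * C * (k * 3 ^ m + (3 - k ^ 2) ^ m))) =
              (C : ENNReal) * 2 * ENNReal.ofReal (2 * a * (k * 3 ^ m + (3 - k ^ 2) ^ m)) := by
            rw [← ENNReal.ofReal_coe_nnreal, ← ENNReal.ofReal_ofNat 2,
              ← ENNReal.ofReal_mul hC0, ← ENNReal.ofReal_mul (by positivity)]
            congr 1
            ring
          rw [this]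
          ring
      _ < ENNReal.ofReal w * volume G := by
          rw [ENNReal.mul_lt_mul_iff_left hGpos hGfin]
          have hlt : 2 * a * (2 * C * (k * 3 ^ m + (3 - k ^ 2) ^ m)) < w := by
            rw [hw]
            have := mul_lt_mul_of_pos_left hnum (by positivity : 0 < 2 * a)
            linarith
          exact (ENNReal.ofReal_lt_ofReal_iff_of_nonneg (by positivity)).2 hlt

end Pool.Agent.MP_d722ac_gt.H93
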