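import Mathlib

set_option autoImplicit false

open MeasureTheory Set

namespace Pool.Agent.MP_d722ac_gt.H93

/-- planar slice: a hexagon cut out of a square -/
def hex (r s : ℝ) : Set (ℝ × ℝ) := {p | |p.1| ≤ r ∧ |p.2| ≤ r ∧ |p.1 + p.2 - s| ≤ r}

theorem isClosed_hexAll (r c : ℝ) :
    IsClosed {q : ℝ × (ℝ × ℝ) | q.2 ∈ hex r (q.1 * c)} := by
  simp only [hex, ofPred_and]
  refine IsClosed.inter (isClosed_le (by fun_prop) (by fun_prop))
    (IsClosed.inter (isClosed_le (by fun_prop) (by fun_prop))
      (isClosed_le (by fun_prop) (by fun_prop)))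

theorem measurableSet_hex (r s : ℝ) : MeasurableSet (hex r s) := by
  have : IsClosed (hex r s) := by
    simp only [hex, ofPred_and]
    refine IsClosed.inter (isClosed_le (by fun_prop) (by fun_prop))
      (IsClosed.inter (isClosed_le (by fun_prop) (by fun_prop))
        (isClosed_le (by fun_prop) (by fun_prop)))
  exact this.measurableSet

theorem integral_abs_sub (r s : ℝ) (h : |s| ≤ r) :
    ∫ x in (-r)..r, (2 * r - |x - s|) = 3 * r ^ 2 - s ^ 2 := by
  have h1 : -r ≤ s := (abs_le.1 h).1
  have h2 : s ≤ r := (abs_le.1 h).2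
  have hc : Continuous fun x : ℝ => 2 * r - |x - s| := by fun_prop
  rw [← intervalIntegral.integral_add_adjacent_intervals (b := s) (hc.intervalIntegrable _ _)
    (hc.intervalIntegrable _ _)]
  have e1 : ∫ x in (-r)..s, (2 * r - |x - s|) = ∫ x in (-r)..s, ((2 * r - s) + x) := by
    apply intervalIntegral.integral_congr
    intro x hx
    rw [uIcc_of_le h1] at hx
    have : x - s ≤ 0 := by linarith [hx.2]
    simp only [abs_of_nonpos this]
    ring
  have e2 : ∫ x in s..r, (2 * r - |x - s|) = ∫ x in s..r, ((2 * r + s) - x) := by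
    apply intervalIntegral.integral_congr
    intro x hx
    rw [uIcc_of_le h2] at hx
    have : 0 ≤ x - s := by linarith [hx.1]
    simp only [abs_of_nonneg this]
    ring
  have e3 : ∫ x in (-r)..s, ((2 * r - s) + x) = (2 * r - s) * (s + r) + (s ^ 2 - r ^ 2) / 2 := by
    rw [intervalIntegral.integral_add (by simp) (by simp)]
    simp only [intervalIntegral.integral_const, integral_id, smul_eq_mul]
    ring
  have e4 : ∫ x in s..r, ((2 * r + s) - x) = (2 * r + s) * (r - s) - (r ^ 2 - s ^ 2) / 2 := by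
    rw [intervalIntegral.integral_sub (by simp) (by simp)]
    simp only [intervalIntegral.integral_const, integral_id, smul_eq_mul]
    ring
  rw [e1, e2, e3, e4]
  ring

theorem volume_hex (r s : ℝ) (h : |s| ≤ r) :
    volume (hex r s) = ENNReal.ofReal (3 * r ^ 2 - s ^ 2) := by
  have hr : 0 ≤ r := (abs_nonneg s).trans h
  have h1 : -r ≤ s := (abs_le.1 h).1
  have h2 : s ≤ r := (abs_le.1 h).2
  rw [Measure.volume_eq_prod, Measure.prod_apply (measurableSet_hex r s)]
  have key : ∀ x : ℝ, volume (Prod.mk x ⁻¹' hex r s) =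
      (Icc (-r) r).indicator (fun x => ENNReal.ofReal (2 * r - |x - s|)) x := by
    intro x
    by_cases hx : x ∈ Icc (-r) r
    · rw [indicator_of_mem hx]
      have hx' : |x| ≤ r := abs_le.2 hx
      have : Prod.mk x ⁻¹' hex r s = Icc (max (-r) (s - r - x)) (min r (s + r - x)) := by
        ext y
        simp only [hex, mem_preimage, mem_ofPred_eq, mem_Icc, max_le_iff, le_min_iff, abs_le]
        constructor
        · rintro ⟨-, ⟨a, b⟩, c, d⟩
          refine ⟨⟨a, by linarith⟩, b, by linarith⟩
        · rintro ⟨⟨a, b⟩, c, d⟩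
          refine ⟨⟨hx.1, hx.2⟩, ⟨a, c⟩, by linarith, by linarith⟩
      rw [this, Real.volume_Icc]
      congr 1
      rcases le_total x s with hxs | hxs
      · rw [abs_of_nonpos (by linarith), min_eq_left (by linarith), max_eq_right (by linarith)]
        ring
      · rw [abs_of_nonneg (by linarith), min_eq_right (by linarith), max_eq_left (by linarith)]
        ring
    · rw [indicator_of_notMem hx]
      have : Prod.mk x ⁻¹' hex r s = ∅ := by
        ext y
        simp only [hex, mem_preimage, mem_ofPred_eq, mem_empty_iff_false, iff_false, not_and]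
        intro hx'
        exact absurd (abs_le.1 hx') hx
      rw [this, measure_empty]
  simp_rw [key]
  rw [lintegral_indicator measurableSet_Icc, ← ofReal_integral_eq_lintegral_ofReal]
  · congr 1
    rw [integral_Icc_eq_integral_Ioc, ← intervalIntegral.integral_of_le (by linarith),
      integral_abs_sub r s h]
  · exact (by fun_prop : Continuous fun x : ℝ => 2 * r - |x - s|).integrableOn_Icc
  · refine (ae_restrict_iff' measurableSet_Icc).2 (Filter.Eventually.of_forall fun x hx => ?_)
    have : |x - s| ≤ 2 * r := abs_le.2 ⟨by linarith [hx.1], by linarith [hx.2]⟩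
    simp only [Pi.zero_apply]
    linarith

/-- the ambient space -/
abbrev E (m : ℕ) := EuclideanSpace ℝ (Fin (m + m + 1))

def ix {m : ℕ} (i : Fin m) : Fin (m + m + 1) := (Fin.castAdd m i).succ

def iy {m : ℕ} (i : Fin m) : Fin (m + m + 1) := (Fin.natAdd m i).succ

def psi (m : ℕ) (x : E m) : ℝ × (Fin m → ℝ × ℝ) := (x 0, fun i => (x (ix i), x (iy i)))

theorem measurePreserving_psi (m : ℕ) : MeasurePreserving (psi m) volume volume := by
  have h1 : MeasurePreserving (@WithLp.ofLp 2 (Fin (m + m + 1) → ℝ)) volume volume :=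
    PiLp.volume_preserving_ofLp _
  have h2 := volume_preserving_piFinSuccAbove (fun _ : Fin (m + m + 1) => ℝ) 0
  have h3 := (volume_measurePreserving_piCongrLeft (fun _ : Fin (m + m) => ℝ)
    (finSumFinEquiv (m := m) (n := m))).symm
  have h4 := volume_measurePreserving_sumPiEquivProdPi (fun _ : Fin m ⊕ Fin m => ℝ)
  have h5 := (volume_measurePreserving_arrowProdEquivProdArrow ℝ ℝ (Fin m)).symm
  have h6 := (MeasurePreserving.id (volume : Measure ℝ)).prod (h5.comp (h4.comp h3))
  have h7 := h6.comp (h2.comp h1)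
  convert h7 using 1
  ext x
  · rfl
  · rfl
  · rfl

/-- fibre product of `m` planar families over the coordinate `0` -/
def fib (m : ℕ) (a r c : ℝ) : Set (E m) :=
  {z | |z 0| ≤ a ∧ ∀ i, (z (ix i), z (iy i)) ∈ hex r (z 0 * c)}

theorem volume_fib (m : ℕ) (a r c : ℝ) :
    volume (fib m a r c) = ∫⁻ s in Icc (-a) a, volume (hex r (s * c)) ^ m := by
  set T : Set (ℝ × (Fin m → ℝ × ℝ)) := {q | |q.1| ≤ a ∧ ∀ i, q.2 i ∈ hex r (q.1 * c)} with hT
  have hTc : IsClosed T := by
    simp only [hT, ofPred_and, ofPred_forall]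
    refine IsClosed.inter (isClosed_le (by fun_prop) (by fun_prop)) (isClosed_iInter fun i => ?_)
    exact (isClosed_hexAll r c).preimage
      (f := fun q : ℝ × (Fin m → ℝ × ℝ) => (q.1, q.2 i)) (by fun_prop)
  have : fib m a r c = psi m ⁻¹' T := rfl
  rw [this, (measurePreserving_psi m).measure_preimage hTc.measurableSet.nullMeasurableSet,
    Measure.volume_eq_prod, Measure.prod_apply hTc.measurableSet,
    ← lintegral_indicator measurableSet_Icc]
  congr 1
  ext s
  by_cases hs : s ∈ Icc (-a) a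
  · rw [indicator_of_mem hs]
    have : Prod.mk s ⁻¹' T = Set.pi univ (fun _ : Fin m => hex r (s * c)) := by
      ext q
      simp only [hT, mem_preimage, mem_ofPred_eq, mem_pi, mem_univ, true_imp_iff]
      exact ⟨fun h => h.2, fun h => ⟨abs_le.2 hs, h⟩⟩
    rw [this, volume_pi, Measure.pi_pi]
    simp
  · rw [indicator_of_notMem hs]
    have : Prod.mk s ⁻¹' T = ∅ := by
      ext q
      simp only [hT, mem_preimage, mem_ofPred_eq, mem_empty_iff_false, iff_false, not_and]
      intro h
      exact absurd (abs_le.1 h) hs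
    rw [this, measure_empty]

theorem volume_fib_zero (m : ℕ) (a r : ℝ) (hr : 0 ≤ r) :
    volume (fib m a r 0) = ENNReal.ofReal (2 * a * (3 * r ^ 2) ^ m) := by
  rw [volume_fib]
  simp only [mul_zero]
  have h3 : 0 ≤ 3 * r ^ 2 - 0 ^ 2 := by nlinarith [sq_nonneg r]
  rw [volume_hex r 0 (by simpa using hr), setLIntegral_const, Real.volume_Icc,
    ← ENNReal.ofReal_pow h3, ← ENNReal.ofReal_mul (pow_nonneg h3 _)]
  congr 1
  ring

theorem volume_fib_le (m : ℕ) (a k : ℝ) (ha : 0 < a) (hk : 0 ≤ k) (hk1 : k ≤ 1) :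
    volume (fib m a 1 a⁻¹) ≤ ENNReal.ofReal (2 * a * (k * 3 ^ m + (3 - k ^ 2) ^ m)) := by
  rw [volume_fib]
  have hk3 : 0 ≤ 3 - k ^ 2 := by nlinarith
  have hb : ∀ s ∈ Icc (-a) a, volume (hex 1 (s * a⁻¹)) ^ m ≤
      (Icc (-(k * a)) (k * a)).indicator (fun _ => ENNReal.ofReal (3 ^ m)) s
        + ENNReal.ofReal ((3 - k ^ 2) ^ m) := by
    intro s hs
    have h1 : |s * a⁻¹| ≤ 1 := by
      rw [abs_mul, abs_of_pos (inv_pos.2 ha), ← div_eq_mul_inv, div_le_one ha]
      exact abs_le.2 hs
    have h2 : (s * a⁻¹) ^ 2 ≤ 1 := by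
      rw [← sq_abs]; nlinarith [abs_nonneg (s * a⁻¹)]
    rw [volume_hex 1 _ h1, ← ENNReal.ofReal_pow (by linarith)]
    by_cases hsk : s ∈ Icc (-(k * a)) (k * a)
    · rw [indicator_of_mem hsk]
      refine le_add_right (ENNReal.ofReal_le_ofReal ?_)
      apply pow_le_pow_left₀ (by linarith)
      nlinarith [sq_nonneg (s * a⁻¹)]
    · refine le_add_left (ENNReal.ofReal_le_ofReal ?_)
      apply pow_le_pow_left₀ (by linarith)
      have h3 : k * a < |s| := by
        by_contra hc
        exact hsk (abs_le.1 (not_lt.1 hc))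
      have h4 : k ≤ |s * a⁻¹| := by
        rw [abs_mul, abs_of_pos (inv_pos.2 ha), ← div_eq_mul_inv, le_div_iff₀ ha]
        exact h3.le
      have h5 : k ^ 2 ≤ (s * a⁻¹) ^ 2 := by
        rw [← sq_abs (s * a⁻¹)]; exact pow_le_pow_left₀ hk h4 2
      linarith
  calc ∫⁻ s in Icc (-a) a, volume (hex 1 (s * a⁻¹)) ^ m
      ≤ ∫⁻ s in Icc (-a) a, ((Icc (-(k * a)) (k * a)).indicator (fun _ => ENNReal.ofReal (3 ^ m)) s
        + ENNReal.ofReal ((3 - k ^ 2) ^ m)) := setLIntegral_mono' measurableSet_Icc hb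
    _ = (∫⁻ s in Icc (-a) a, (Icc (-(k * a)) (k * a)).indicator
          (fun _ => ENNReal.ofReal (3 ^ m)) s)
        + ∫⁻ _ in Icc (-a) a, ENNReal.ofReal ((3 - k ^ 2) ^ m) :=
        lintegral_add_right _ measurable_const
    _ ≤ (∫⁻ s, (Icc (-(k * a)) (k * a)).indicator (fun _ => ENNReal.ofReal (3 ^ m)) s)
        + ∫⁻ _ in Icc (-a) a, ENNReal.ofReal ((3 - k ^ 2) ^ m) := by
        gcongr
        exact Measure.restrict_le_self
    _ = ENNReal.ofReal (2 * a * (k * 3 ^ m + (3 - k ^ 2) ^ m)) := by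
        rw [lintegral_indicator measurableSet_Icc, setLIntegral_const, setLIntegral_const,
          Real.volume_Icc, Real.volume_Icc, ← ENNReal.ofReal_mul (by positivity),
          ← ENNReal.ofReal_mul (by positivity), ← ENNReal.ofReal_add]
        · congr 1
          ring
        · have : 0 ≤ k * a := by positivity
          have : 0 ≤ k * a - -(k * a) := by linarith
          positivity
        · have : 0 ≤ a - -a := by linarith
          positivity

end Pool.Agent.MP_d722ac_gt.H93
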